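import Pool.Agent.H733.RW.Iter

set_option autoImplicit false

open Finset
open scoped RealInnerProductSpace

namespace Pool.Agent.H733.RW

open Pool.Agent.H172R2.ZS (E)

/-- reweighting for spanning families, aggregated -/
theorem agg1 {C : ℝ} (hC : ∀ (n N : ℕ) (u : Fin N → E n), 0 < n →
    (∀ x : E n, (∀ j, ⟪u j, x⟫ = 0) → x = 0) → ∀ ε : ℝ, 0 < ε → ε < 1 →
    ∃ (N' : ℕ) (s : Fin N' → ℝ) (g : Fin N' → Fin N), (∀ k, 0 ≤ s k) ∧
      (N' : ℝ) ≤ C * n / ε ^ 2 ∧
      ∀ x : E n, abs ((∑ k, |⟪s k • u (g k), x⟫|) - ∑ j, |⟪u j, x⟫|) ≤ ε * ∑ j, |⟪u j, x⟫|)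
    (n N : ℕ) (u : Fin N → E n) (hn : 0 < n)
    (hu : ∀ x : E n, (∀ j, ⟪u j, x⟫ = 0) → x = 0) (ε : ℝ) (he : 0 < ε) (he1 : ε < 1) :
    ∃ t : Fin N → ℝ, (∀ j, 0 ≤ t j) ∧ ((univ.filter fun j => t j ≠ 0).card : ℝ) ≤ C * n / ε ^ 2 ∧
      ∀ x : E n, abs ((∑ j, t j * |⟪u j, x⟫|) - ∑ j, |⟪u j, x⟫|) ≤ ε * ∑ j, |⟪u j, x⟫| := by
  classical
  obtain ⟨N', s, g, hs, hN, hx⟩ := hC n N u hn hu ε he he1
  refine ⟨fun j => ∑ k ∈ univ.filter (fun k => g k = j), s k,
    fun j => sum_nonneg fun k _ => hs k, ?_, ?_⟩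
  · refine le_trans ?_ hN
    have h1 : (univ.filter fun j => (∑ k ∈ univ.filter (fun k => g k = j), s k) ≠ 0) ⊆
        univ.image g := by
      intro j hj
      rw [mem_filter] at hj
      obtain ⟨k, hk, -⟩ := exists_ne_zero_of_sum_ne_zero hj.2
      rw [mem_filter] at hk
      exact mem_image.2 ⟨k, mem_univ k, hk.2⟩
    have h2 := (card_le_card h1).trans card_image_le
    rw [card_univ, Fintype.card_fin] at h2
    exact_mod_cast h2
  · intro x
    have h3 : ∑ j, (∑ k ∈ univ.filter (fun k => g k = j), s k) * |⟪u j, x⟫| =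
        ∑ k, |⟪s k • u (g k), x⟫| := by
      rw [← sum_fiberwise univ g (fun k => |⟪s k • u (g k), x⟫|)]
      apply sum_congr rfl
      intro j _
      rw [sum_mul]
      apply sum_congr rfl
      intro k hk
      rw [mem_filter] at hk
      rw [hk.2, real_inner_smul_left, abs_mul, abs_of_nonneg (hs k)]
    simp only [h3]
    exact hx x

/-- **Reweighting.**  For every finite family of vectors in `ℝᵈ`, a reweighting with at most
`C d / ε ^ 2` nonzero weights. -/
theorem agg : ∃ C : ℝ, 0 < C ∧ ∀ (d N : ℕ) (u : Fin N → E d) (ε : ℝ), 0 < ε → ε < 1 →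
    ∃ t : Fin N → ℝ, (∀ j, 0 ≤ t j) ∧ ((univ.filter fun j => t j ≠ 0).card : ℝ) ≤ C * d / ε ^ 2 ∧
      ∀ x : E d, abs ((∑ j, t j * |⟪u j, x⟫|) - ∑ j, |⟪u j, x⟫|) ≤ ε * ∑ j, |⟪u j, x⟫| := by
  classical
  obtain ⟨C, hC0, hC⟩ := iterR
  refine ⟨C, hC0, fun d N u ε he he1 => ?_⟩
  set W : Submodule ℝ (E d) := Submodule.span ℝ (Set.range u) with hW
  have huW : ∀ j, u j ∈ W := fun j => Submodule.subset_span ⟨j, rfl⟩
  set b := stdOrthonormalBasis ℝ W with hb
  have hkd : Module.finrank ℝ W ≤ d := by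
    have := Submodule.finrank_le W
    rwa [finrank_euclideanSpace_fin] at this
  rcases Nat.eq_zero_or_pos (Module.finrank ℝ W) with h0 | hpos
  · have hbot : W = ⊥ := Submodule.finrank_eq_zero.1 h0
    have hu0 : ∀ j, u j = 0 := fun j => by
      have := huW j
      rw [hbot] at this
      exact (Submodule.mem_bot ℝ).1 this
    refine ⟨fun _ => 0, fun _ => le_rfl, ?_, fun x => ?_⟩
    · simp only [ne_eq, not_true_eq_false, filter_false, card_empty, Nat.cast_zero]
      positivity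
    · simp [hu0]
  · set v : Fin N → E (Module.finrank ℝ W) := fun j => b.repr ⟨u j, huW j⟩ with hv
    have hin : ∀ (x : E d) (j : Fin N), ⟪u j, x⟫ = ⟪v j, b.repr (W.orthogonalProjectionOnto x)⟫ := by
      intro x j
      simp only [hv]
      rw [LinearIsometryEquiv.inner_map_map, Submodule.coe_inner]
      exact (Submodule.inner_orthogonalProjectionOnto_eq_of_mem_left ⟨u j, huW j⟩ x).symm
    have hsp : ∀ x : E (Module.finrank ℝ W), (∀ j, ⟪v j, x⟫ = 0) → x = 0 := by
      intro x hx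
      set y : W := b.repr.symm x with hy
      have hxy : x = b.repr y := by rw [hy, LinearIsometryEquiv.apply_symm_apply]
      have h1 : ∀ j, ⟪u j, (y : E d)⟫ = 0 := by
        intro j
        have := hx j
        simp only [hv] at this
        rw [hxy, LinearIsometryEquiv.inner_map_map, Submodule.coe_inner] at this
        exact this
      have h2 : ∀ z ∈ W, ⟪z, (y : E d)⟫ = 0 := by
        intro z hz
        rw [hW] at hz
        induction hz using Submodule.span_induction with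
        | mem z hz =>
          obtain ⟨j, rfl⟩ := hz
          exact h1 j
        | zero => exact inner_zero_left _
        | add z w _ _ hz hw => rw [inner_add_left, hz, hw, add_zero]
        | smul c z _ hz => rw [real_inner_smul_left, hz, mul_zero]
      have h3 : (y : E d) = 0 := inner_self_eq_zero.1 (h2 y y.2)
      have h4 : y = 0 := Subtype.ext h3
      rw [hxy, h4, map_zero]
    obtain ⟨t, ht, hc, hx⟩ := agg1 hC _ N v hpos hsp ε he he1
    refine ⟨t, ht, hc.trans ?_, fun x => ?_⟩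
    · gcongr
    · simp only [hin]
      exact hx _

end Pool.Agent.H733.RW
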