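import Pool.Agent.W567.ZonIter

/-!
# Sparsification of zonotopes by reweighting (adaptation of the steps of LinearSegments)
-/

set_option autoImplicit false

open MeasureTheory ProbabilityTheory Finset
open scoped RealInnerProductSpace ENNReal

namespace Pool.Agent.H733.RW

open Pool.Agent.H172R2.ZS (E Zon Lew sg)
open Pool.Agent.H902R3.ZA
open Pool.Agent.H902R3.ZA.STEPaux
open Pool.Agent.H902R3.ZA.ITERaux

/-- STEPR: one step with reweighting -/
def S_STEPR : Prop := ∀ (n N : ℕ) (u : Fin N → E n), 0 < n →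
  (∀ x : E n, (∀ j, ⟪u j, x⟫ = 0) → x = 0) → 1000 * n ≤ N →
  ∃ (N' : ℕ) (s : Fin N' → ℝ) (g : Fin N' → Fin N), (∀ k, 0 ≤ s k) ∧ (N' : ℝ) ≤ 97 / 100 * N ∧
    ∀ x : E n, abs ((∑ k, |⟪s k • u (g k), x⟫|) - ∑ j, |⟪u j, x⟫|) ≤
      2000 * Real.sqrt ((n : ℝ) / N) * ∑ j, |⟪u j, x⟫|

theorem STEPR_ok (h1 : S_STEPL) (h2 : Pool.Agent.H172R2.ZS.S_LEW)
    (h3 : Pool.Agent.H172R2.ZS.S_BAS) : S_STEPR := by
  intro n N u hn hu hN
  obtain ⟨L, hL⟩ := h2 n N u hu
  have hn0 : (0 : ℝ) < n := by exact_mod_cast hn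
  have hNn : 1000 * (n : ℝ) ≤ N := by exact_mod_cast hN
  have hN0 : (0 : ℝ) < N := by linarith
  set c0 : Fin N → ℝ := fun j => ‖L (u j)‖ with hc0
  set a0 : Fin N → E n := fun j => (‖L (u j)‖)⁻¹ • L (u j) with ha0
  have hca : ∀ j, c0 j • a0 j = L (u j) := by
    intro j
    simp only [hc0, ha0, smul_smul]
    by_cases h : L (u j) = 0
    · rw [h]; simp
    · rw [mul_inv_cancel₀ (norm_ne_zero_iff.2 h), one_smul]
  have hc0n : ∀ j, 0 ≤ c0 j := fun j => norm_nonneg _
  have hna : ∀ j, c0 j * ‖a0 j‖ ^ 2 = c0 j := by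
    intro j
    simp only [hc0, ha0]
    by_cases h : L (u j) = 0
    · rw [h]; simp
    · have h' : ‖L (u j)‖ ≠ 0 := norm_ne_zero_iff.2 h
      rw [norm_smul, norm_inv, norm_norm, inv_mul_cancel₀ h']; ring
  have hsq : ∀ x : E n, ∑ j, c0 j * ⟪a0 j, x⟫ ^ 2 = ‖x‖ ^ 2 := by
    intro x
    rw [← hL x]
    refine Finset.sum_congr rfl fun j _ => ?_
    simp only [hc0, ha0]
    rw [real_inner_smul_left]
    by_cases h : L (u j) = 0
    · rw [h]; simp
    · have h' : ‖L (u j)‖ ≠ 0 := norm_ne_zero_iff.2 h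
      field_simp
  have hlew0 : Lew c0 a0 := ⟨hc0n, hna, hsq⟩
  have hsum0 : ∑ j, c0 j = n := (h3 n N c0 a0 hlew0).1
  set τ : ℝ := 100 * n / N with hτ
  have hτ0 : 0 < τ := by positivity
  set k : Fin N → ℕ := fun j => ⌈c0 j / τ⌉₊ with hk
  have hk1 : ∀ j, c0 j / τ ≤ k j := fun j => Nat.le_ceil _
  have hk2 : ∀ j, (k j : ℝ) ≤ c0 j / τ + 1 := fun j =>
    (Nat.ceil_lt_add_one (div_nonneg (hc0n j) hτ0.le)).le
  have hk0 : ∀ j, k j = 0 → c0 j = 0 := by
    intro j h
    have h4 := hk1 j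
    rw [h, Nat.cast_zero, div_le_iff₀ hτ0, zero_mul] at h4
    exact le_antisymm h4 (hc0n j)
  set c : Fin (∑ j, k j) → ℝ := fun i =>
    c0 (finSigmaFinEquiv.symm i).1 / (k (finSigmaFinEquiv.symm i).1 : ℝ) with hc
  set a : Fin (∑ j, k j) → E n := fun i => a0 (finSigmaFinEquiv.symm i).1 with ha
  have hlew : Lew c a := by
    refine ⟨fun i => div_nonneg (hc0n _) (Nat.cast_nonneg _), fun i => ?_, fun x => ?_⟩
    · simp only [hc, ha]
      rw [div_mul_eq_mul_div, hna]
    · have := sum_copies k c0 (fun j => ⟪a0 j, x⟫ ^ 2) hk0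
      simp only [hc, ha]
      rw [this, hsq x]
  have hcτ : ∀ i, c i ≤ τ := by
    intro i
    simp only [hc]
    set p := finSigmaFinEquiv.symm i with hp
    have hpos : 0 < k p.1 := p.2.pos
    have hpos' : (0 : ℝ) < k p.1 := by exact_mod_cast hpos
    rw [div_le_iff₀ hpos']
    have h4 := hk1 p.1
    rw [div_le_iff₀ hτ0] at h4
    linarith
  have hMcast : ((∑ j, k j : ℕ) : ℝ) = ∑ j, (k j : ℝ) := by push_cast; rfl
  have hnτ : (n : ℝ) / τ = N / 100 := by
    rw [hτ]; field_simp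
  have hsdiv : ∑ j, c0 j / τ = N / 100 := by
    rw [← Finset.sum_div, hsum0, hnτ]
  have hM1 : (N : ℝ) / 100 ≤ ((∑ j, k j : ℕ) : ℝ) := by
    rw [hMcast, ← hsdiv]
    exact Finset.sum_le_sum fun j _ => hk1 j
  have hM2 : ((∑ j, k j : ℕ) : ℝ) ≤ N / 100 + N := by
    rw [hMcast]
    calc ∑ j, (k j : ℝ) ≤ ∑ j, (c0 j / τ + 1) := Finset.sum_le_sum fun j _ => hk2 j
      _ = N / 100 + N := by
          rw [Finset.sum_add_distrib, hsdiv]; simp
  have hM10 : 10 * n ≤ ∑ j, k j := by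
    have : 10 * (n : ℝ) ≤ ((∑ j, k j : ℕ) : ℝ) := by linarith
    exact_mod_cast this
  obtain ⟨N', w, f, hw, hN', hx⟩ := h1 n _ c a hlew τ hτ0 hcτ hn hM10
  have hLs : ∀ q, L.symm (w q • a (f q)) =
      (w q * (‖L (u (finSigmaFinEquiv.symm (f q)).1)‖)⁻¹) •
        u (finSigmaFinEquiv.symm (f q)).1 := by
    intro q
    simp only [ha, ha0]
    rw [smul_smul, LinearEquiv.map_smul, LinearEquiv.symm_apply_apply]
  refine ⟨N', fun q => w q * (‖L (u (finSigmaFinEquiv.symm (f q)).1)‖)⁻¹,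
    fun q => (finSigmaFinEquiv.symm (f q)).1,
    fun q => mul_nonneg (hw q) (inv_nonneg.2 (norm_nonneg _)), ?_, fun x => ?_⟩
  · refine hN'.trans ?_
    have h4 : 9 * (n : ℝ) / (1024 * τ) = 9 / 1024 * (N / 100) := by
      rw [← hnτ]; ring
    rw [h4]
    linarith
  · set y : E n := LinearMap.adjoint (L.symm : E n →ₗ[ℝ] E n) x with hy
    have hadj : ∀ p : E n, ⟪p, y⟫ = ⟪L.symm p, x⟫ := fun p => by
      rw [hy, LinearMap.adjoint_inner_right]; rfl
    have e1 : ∀ q, |⟪L.symm (w q • a (f q)), x⟫| = w q * |⟪a (f q), y⟫| := by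
      intro q
      rw [← hadj, real_inner_smul_left, abs_mul, abs_of_nonneg (hw q)]
    have e2 : ∑ j, |⟪u j, x⟫| = hh c a y := by
      have h5 := sum_copies k c0 (fun j => |⟪a0 j, y⟫|) hk0
      unfold hh
      simp only [hc, ha]
      rw [h5]
      refine Finset.sum_congr rfl fun j _ => ?_
      have h6 : ⟪u j, x⟫ = c0 j * ⟪a0 j, y⟫ := by
        rw [← real_inner_smul_left, hca, hadj, LinearEquiv.symm_apply_apply]
      rw [h6, abs_mul, abs_of_nonneg (hc0n j)]
    have e3 : 200 * Real.sqrt τ = 2000 * Real.sqrt ((n : ℝ) / N) := by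
      have : τ = 10 ^ 2 * ((n : ℝ) / N) := by rw [hτ]; ring
      rw [this, Real.sqrt_mul (by positivity), Real.sqrt_sq (by norm_num)]; ring
    have h7 := hx y
    simp only [← hLs]
    simp only [e1]
    rw [e2, ← e3]
    exact h7


theorem keyR (h : S_STEPR) (n : ℕ) (hn : 0 < n) (T : ℝ) (hT : 100000000 * (n : ℝ) ≤ T) :
    ∀ (N : ℕ) (u : Fin N → E n), (∀ x : E n, (∀ j, ⟪u j, x⟫ = 0) → x = 0) →
    ∃ (N' : ℕ) (s : Fin N' → ℝ) (g : Fin N' → Fin N), (∀ k, 0 ≤ s k) ∧ (N' : ℝ) ≤ T ∧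
      ∀ x : E n, Real.exp (-(EE n T N)) * HH u x ≤ HH (fun k => s k • u (g k)) x ∧
        HH (fun k => s k • u (g k)) x ≤ Real.exp (EE n T N) * HH u x := by
  have hn' : (1 : ℝ) ≤ n := by exact_mod_cast hn
  have hT0 : 0 < T := by linarith
  intro N
  induction N using Nat.strong_induction_on with
  | _ N ih =>
    intro u hu
    by_cases hNT : (N : ℝ) ≤ T
    · refine ⟨N, fun _ => 1, fun k => k, fun _ => zero_le_one, hNT, fun x => ?_⟩
      have hone : (fun k => (1 : ℝ) • u k) = u := funext fun k => one_smul ℝ (u k)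
      rw [hone]
      have hE := EE_nonneg n T hT0 N
      have h0 := HH_nonneg u x
      constructor
      · have : Real.exp (-(EE n T N)) ≤ 1 := Real.exp_le_one_iff.2 (by linarith)
        nlinarith
      · have : 1 ≤ Real.exp (EE n T N) := Real.one_le_exp hE
        nlinarith
    · rw [not_le] at hNT
      have hN0 : (0 : ℝ) < N := by linarith
      have hN1000 : 1000 * n ≤ N := by
        have h1 : (1000 * (n : ℝ)) ≤ N := by linarith
        exact_mod_cast h1
      obtain ⟨N1, s1, g1, hs1, hN1, hv1'⟩ := h n N u hn hu hN1000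
      obtain ⟨v1, hv1e⟩ : ∃ v1 : Fin N1 → E n, v1 = fun k => s1 k • u (g1 k) := ⟨_, rfl⟩
      have hv1 : ∀ x : E n, abs ((∑ k, |⟪v1 k, x⟫|) - ∑ j, |⟪u j, x⟫|) ≤
          2000 * Real.sqrt ((n : ℝ) / N) * ∑ j, |⟪u j, x⟫| := by
        rw [hv1e]
        exact hv1'
      set s : ℝ := Real.sqrt ((n : ℝ) / N) with hs
      have hs0 : 0 ≤ s := Real.sqrt_nonneg _
      have hs2 : s ≤ 1 / 10000 := by
        rw [hs]
        apply Real.sqrt_le_iff.2
        refine ⟨by norm_num, ?_⟩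
        rw [div_le_iff₀ hN0]
        nlinarith
      set q : ℝ := 2000 * s with hq
      have hq0 : 0 ≤ q := by positivity
      have hq1 : q ≤ 1 / 2 := by rw [hq]; linarith
      have hlo : ∀ x, Real.exp (-(2 * q)) * HH u x ≤ HH v1 x := by
        intro x
        have h1 : |HH v1 x - HH u x| ≤ q * HH u x := hv1 x
        have h2 := (abs_le.1 h1).1
        have h3 := exp_neg_two_le hq0 hq1
        have h4 := HH_nonneg u x
        nlinarith
      have hup : ∀ x, HH v1 x ≤ Real.exp (2 * q) * HH u x := by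
        intro x
        have h1 : |HH v1 x - HH u x| ≤ q * HH u x := hv1 x
        have h2 := (abs_le.1 h1).2
        have h3 : 1 + 2 * q ≤ Real.exp (2 * q) := by
          have := Real.add_one_le_exp (2 * q)
          linarith
        have h4 := HH_nonneg u x
        nlinarith
      have hv1s : ∀ x : E n, (∀ j, ⟪v1 j, x⟫ = 0) → x = 0 := by
        intro x hx
        apply hu
        apply HH_eq_zero
        have h1 : HH v1 x = 0 := by
          unfold HH
          exact Finset.sum_eq_zero fun j _ => by rw [hx j, abs_zero]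
        have h2 := hlo x
        rw [h1] at h2
        have h3 := Real.exp_pos (-(2 * q))
        have h4 := HH_nonneg u x
        nlinarith
      have hEN := EE_of_ge n T N hNT.le
      rw [← hs] at hEN
      have hsT : s ≤ Real.sqrt ((n : ℝ) / T) := by
        rw [hs]
        apply Real.sqrt_le_sqrt
        exact div_le_div_of_nonneg_left (Nat.cast_nonneg n) hT0 hNT.le
      by_cases hN1T : (N1 : ℝ) ≤ T
      · refine ⟨N1, s1, g1, hs1, hN1T, fun x => ?_⟩
        rw [← hv1e]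
        have hle : 2 * q ≤ EE n T N := by
          rw [hEN, hq]
          nlinarith
        have h4 := HH_nonneg u x
        constructor
        · refine le_trans ?_ (hlo x)
          exact mul_le_mul_of_nonneg_right (Real.exp_le_exp.2 (by linarith)) h4
        · refine le_trans (hup x) ?_
          exact mul_le_mul_of_nonneg_right (Real.exp_le_exp.2 hle) h4
      · rw [not_le] at hN1T
        have hN10 : (0 : ℝ) < N1 := by linarith
        have hlt : N1 < N := by
          have : (N1 : ℝ) < N := by nlinarith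
          exact_mod_cast this
        obtain ⟨N', s2, g2, hs2', hN', hv⟩ := ih N1 hlt v1 hv1s
        refine ⟨N', fun k => s2 k * s1 (g2 k), fun k => g1 (g2 k),
          fun k => mul_nonneg (hs2' k) (hs1 _), hN', fun x => ?_⟩
        have hvv : (fun k => (s2 k * s1 (g2 k)) • u (g1 (g2 k))) = fun k => s2 k • v1 (g2 k) := by
          funext k
          rw [hv1e, mul_smul]
        rw [hvv]
        have hEN1 := EE_of_ge n T N1 hN1T.le
        have hr : 1.015 * s ≤ Real.sqrt ((n : ℝ) / N1) := by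
          apply Real.le_sqrt_of_sq_le
          have hs2' : s ^ 2 = (n : ℝ) / N := by
            rw [hs]; exact Real.sq_sqrt (by positivity)
          rw [mul_pow, hs2', mul_div_assoc', div_le_div_iff₀ hN0 hN10]
          have : (0 : ℝ) ≤ n := by linarith
          nlinarith [mul_le_mul_of_nonneg_left hN1 this]
        have hle : 2 * q + EE n T N1 ≤ EE n T N := by
          rw [hEN, hEN1, hq]
          nlinarith
        have h4 := HH_nonneg u x
        obtain ⟨h5, h6⟩ := hv x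
        constructor
        · calc Real.exp (-(EE n T N)) * HH u x
              ≤ Real.exp (-(EE n T N1) + -(2 * q)) * HH u x :=
                mul_le_mul_of_nonneg_right (Real.exp_le_exp.2 (by linarith)) h4
            _ = Real.exp (-(EE n T N1)) * (Real.exp (-(2 * q)) * HH u x) := by
                rw [Real.exp_add]; ring
            _ ≤ Real.exp (-(EE n T N1)) * HH v1 x :=
                mul_le_mul_of_nonneg_left (hlo x) (Real.exp_pos _).le
            _ ≤ HH (fun k => s2 k • v1 (g2 k)) x := h5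
        · calc HH (fun k => s2 k • v1 (g2 k)) x ≤ Real.exp (EE n T N1) * HH v1 x := h6
            _ ≤ Real.exp (EE n T N1) * (Real.exp (2 * q) * HH u x) :=
                mul_le_mul_of_nonneg_left (hup x) (Real.exp_pos _).le
            _ = Real.exp (EE n T N1 + 2 * q) * HH u x := by
                rw [Real.exp_add]; ring
            _ ≤ Real.exp (EE n T N) * HH u x :=
                mul_le_mul_of_nonneg_right (Real.exp_le_exp.2 (by linarith)) h4


/-- ITERR: iteration, with reweighting -/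
def S_ITERR : Prop := ∃ C : ℝ, 0 < C ∧ ∀ (n N : ℕ) (u : Fin N → E n), 0 < n →
  (∀ x : E n, (∀ j, ⟪u j, x⟫ = 0) → x = 0) → ∀ ε : ℝ, 0 < ε → ε < 1 →
  ∃ (N' : ℕ) (s : Fin N' → ℝ) (g : Fin N' → Fin N), (∀ k, 0 ≤ s k) ∧ (N' : ℝ) ≤ C * n / ε ^ 2 ∧
    ∀ x : E n, abs ((∑ k, |⟪s k • u (g k), x⟫|) - ∑ j, |⟪u j, x⟫|) ≤ ε * ∑ j, |⟪u j, x⟫|

theorem ITERR_ok (h : S_STEPR) : S_ITERR := by
  refine ⟨1000000000000, by norm_num, ?_⟩
  intro n N u hn hu ε hε0 hε1
  have hn' : (1 : ℝ) ≤ n := by exact_mod_cast hn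
  have hT : 100000000 * (n : ℝ) ≤ 1000000000000 * n / ε ^ 2 := by
    rw [le_div_iff₀ (by positivity)]
    have : ε ^ 2 ≤ 1 := by nlinarith
    nlinarith
  obtain ⟨N', s, g, hs, hN', hv⟩ := keyR h n hn (1000000000000 * n / ε ^ 2) hT N u hu
  refine ⟨N', s, g, hs, hN', fun x => ?_⟩
  obtain ⟨h1, h2⟩ := hv x
  set e := EE n (1000000000000 * n / ε ^ 2) N with he
  have hT0 : (0 : ℝ) < 1000000000000 * n / ε ^ 2 := by positivity
  have he0 : 0 ≤ e := EE_nonneg _ _ hT0 _
  have hsq : Real.sqrt ((n : ℝ) / (1000000000000 * n / ε ^ 2)) = ε / 1000000 := by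
    have : (n : ℝ) / (1000000000000 * n / ε ^ 2) = (ε / 1000000) ^ 2 := by
      field_simp
      norm_num
    rw [this, Real.sqrt_sq (by positivity)]
  have he1 : e ≤ 404000 * (ε / 1000000) := by
    rw [← hsq]; exact EE_le _ _ _
  have he2 : e ≤ ε / 2 := by linarith
  have h0 := HH_nonneg u x
  have h3 : Real.exp e ≤ 1 + 2 * e := exp_le_add he0 (by linarith)
  have h4 : 1 - e ≤ Real.exp (-e) := by
    have := Real.add_one_le_exp (-e)
    linarith
  show |HH (fun k => s k • u (g k)) x - HH u x| ≤ ε * HH u x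
  rw [abs_le]
  constructor
  · nlinarith
  · nlinarith


theorem iterR : S_ITERR := by
  have hGAU : Pool.Agent.H172R2.ZS.S_GAU := Pool.Agent.H172R2.ZS.GAU_ok
    (Pool.Agent.H172R2.ZS.MAP_ok Pool.Agent.H172R2.ZS.ONE_ok Pool.Agent.H172R2.ZS.BAS_ok
      Pool.Agent.H172R2.ZS.DET_ok)
  have hHAM : Pool.Agent.H172R2.ZS.S_HAM := Pool.Agent.H172R2.GS.HAM_ok
  have hPLN : S_PLN := PLN_ok (PLA_ok LBM_ok)
  have hDOM : S_DOM := DOM_ok RES_ok
  have hSC : S_SC := SC_ok RES_ok (SEC_ok hPLN)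
  have hLOW : S_LOW := LOW_ok hDOM hSC LAW_ok hGAU
  have hJEN : S_JEN := JEN_ok hPLN ROT_ok QJ_ok
  have hTWO : S_TWO := TWO_ok hLOW PHI_ok hJEN MEAN_ok (FIX_ok PHI_ok)
  have hCOL : S_COL := COL_ok SHI_ok AVG_ok hHAM
  exact ITERR_ok (STEPR_ok (STEPL_ok hTWO hCOL) Pool.Agent.H172R2.ZS.LEW_ok
    Pool.Agent.H172R2.ZS.BAS_ok)

end Pool.Agent.H733.RW
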