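import Mathlib
set_option autoImplicit false
open Finset
namespace Pool.Agent.H733.RW

/-- telescoping of clamps -/
theorem clamp_sum (c : ℕ → ℝ) (hc : Monotone c) (h0 : c 0 = 0) (t : ℝ) (ht : 0 ≤ t) (m : ℕ) :
    ∑ j ∈ range m, (max (c j) (min t (c (j + 1))) - c j) = min t (c m) := by
  induction m with
  | zero => simp [h0, ht]
  | succ m ih =>
    rw [sum_range_succ, ih]
    have h1 : c m ≤ c (m + 1) := hc (Nat.le_succ m)
    rcases le_total t (c m) with h | h
    · rw [min_eq_left h, min_eq_left (h.trans h1), max_eq_left h]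
      ring
    · rw [min_eq_right h, max_eq_right (le_min h h1)]
      ring

/-- pairing: a symmetric nonnegative matrix with zero diagonal and given row sums -/
theorem pairing (m : ℕ) (r : ℕ → ℝ) (hr : ∀ i, 0 ≤ r i)
    (h2 : ∀ i < m, 2 * r i ≤ ∑ j ∈ range m, r j) :
    ∃ l : ℕ → ℕ → ℝ, (∀ i j, 0 ≤ l i j) ∧ (∀ i j, l i j = l j i) ∧ (∀ i < m, l i i = 0) ∧
      ∀ i < m, ∑ j ∈ range m, l i j = r i := by
  set c : ℕ → ℝ := fun i => ∑ k ∈ range i, r k with hcd
  have hc1 : ∀ i, c (i + 1) = c i + r i := fun i => sum_range_succ r i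
  have hc : Monotone c := monotone_nat_of_le_succ fun i => by
    rw [hc1]
    linarith [hr i]
  have h0 : c 0 = 0 := by simp [hcd]
  obtain ⟨h, hh⟩ : ∃ h, h = c m / 2 := ⟨_, rfl⟩
  have hcm : c m = 2 * h := by rw [hh]; ring
  have hpos : ∀ i, 0 ≤ c i := fun i => h0 ▸ hc (Nat.zero_le i)
  have hh0 : 0 ≤ h := by
    have := hpos m
    linarith
  set ov : ℕ → ℕ → ℝ := fun i j => max (c i) (min (c (j + 1) + h) (c (i + 1))) -
    max (c i) (min (c j + h) (c (i + 1))) with hov
  have ov0 : ∀ i j, 0 ≤ ov i j := by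
    intro i j
    have h1 : c j ≤ c (j + 1) := hc (Nat.le_succ j)
    have : max (c i) (min (c j + h) (c (i + 1))) ≤ max (c i) (min (c (j + 1) + h) (c (i + 1))) :=
      max_le_max le_rfl (min_le_min (by linarith) le_rfl)
    simp only [hov]
    linarith
  refine ⟨fun i j => ov i j + ov j i, fun i j => add_nonneg (ov0 i j) (ov0 j i),
    fun i j => add_comm _ _, fun i hi => ?_, fun i hi => ?_⟩
  · have h3 : r i ≤ h := by
      have := h2 i hi
      have h4 : ∑ j ∈ range m, r j = 2 * h := hcm
      linarith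
    have h5 := hc1 i
    have h6 : ov i i = 0 := by
      simp only [hov]
      rw [min_eq_right (by linarith : c (i + 1) ≤ c (i + 1) + h),
        min_eq_right (by linarith : c (i + 1) ≤ c i + h)]
      ring
    show ov i i + ov i i = 0
    rw [h6]
    ring
  · show ∑ j ∈ range m, (ov i j + ov j i) = r i
    rw [sum_add_distrib]
    have hci : c i ≤ c (i + 1) := hc (Nat.le_succ i)
    have hcim : c (i + 1) ≤ 2 * h := hcm ▸ hc hi
    have s1 : ∑ j ∈ range m, ov i j = c (i + 1) - max (c i) (min h (c (i + 1))) := by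
      simp only [hov]
      rw [sum_range_sub (fun j => max (c i) (min (c j + h) (c (i + 1)))), h0, zero_add]
      rw [min_eq_right (by linarith : c (i + 1) ≤ c m + h), max_eq_right hci]
    have s2 : ∑ j ∈ range m, ov j i = min (c (i + 1) + h) (c m) - min (c i + h) (c m) := by
      rw [← clamp_sum c hc h0 _ (add_nonneg (hpos (i + 1)) hh0) m,
        ← clamp_sum c hc h0 _ (add_nonneg (hpos i) hh0) m, ← sum_sub_distrib]
      apply sum_congr rfl
      intro j _
      simp only [hov]
      ring
    rw [s1, s2, hcm]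
    have h5 := hc1 i
    rcases le_total (c (i + 1)) h with h7 | h7
    · rw [min_eq_right h7, max_eq_right hci, min_eq_left (by linarith), min_eq_left (by linarith)]
      linarith
    · rw [min_eq_left h7, min_eq_right (by linarith : 2 * h ≤ c (i + 1) + h)]
      rcases le_total (c i) h with h8 | h8
      · rw [max_eq_right h8, min_eq_left (by linarith)]
        linarith
      · rw [max_eq_left h8, min_eq_right (by linarith)]
        linarith

end Pool.Agent.H733.RW
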