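import Mathlib
set_option autoImplicit false
open Finset
namespace Pool.Agent.H733.RW

variable {V : Type} [DecidableEq V]

/-- the coefficients of the quadratic polynomial -/
noncomputable def qc (e : Finset V) (φ : Finset V → ℝ) (a b : V) : ℝ :=
  if a ∈ e ∧ b ∈ e then (if a = b then φ {a} else (φ {a, b} - φ {a} - φ {b}) / 2) else 0

theorem qc_sum [Fintype V] (e : Finset V) (φ : Finset V → ℝ) (S : Finset V) :
    ∑ a : V, ∑ b : V, qc e φ a b * (if a ∈ S ∧ b ∈ S then 1 else 0) =
      ∑ a ∈ S ∩ e, ∑ b ∈ S ∩ e, (if a = b then φ {a} else (φ {a, b} - φ {a} - φ {b}) / 2) := by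
  rw [← sum_subset (subset_univ (S ∩ e))]
  · apply sum_congr rfl
    intro a ha
    rw [mem_inter] at ha
    rw [← sum_subset (subset_univ (S ∩ e))]
    · apply sum_congr rfl
      intro b hb
      rw [mem_inter] at hb
      unfold qc
      rw [if_pos (show a ∈ e ∧ b ∈ e from ⟨ha.2, hb.2⟩),
        if_pos (show a ∈ S ∧ b ∈ S from ⟨ha.1, hb.1⟩), mul_one]
    · intro b _ hb
      rw [mem_inter, not_and_or] at hb
      unfold qc
      rcases hb with hb | hb
      · rw [if_neg (fun h : a ∈ S ∧ b ∈ S => hb h.2), mul_zero]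
      · rw [if_neg (fun h : a ∈ e ∧ b ∈ e => hb h.2), zero_mul]
  · intro a _ ha
    rw [mem_inter, not_and_or] at ha
    apply sum_eq_zero
    intro b _
    unfold qc
    rcases ha with ha | ha
    · rw [if_neg (fun h : a ∈ S ∧ b ∈ S => ha h.1), mul_zero]
    · rw [if_neg (fun h : a ∈ e ∧ b ∈ e => ha h.1), zero_mul]

/-- a set function on at most three points without cubic part is quadratic -/
theorem quad [Fintype V] (e : Finset V) (he : e.card ≤ 3) (φ : Finset V → ℝ) (h0 : φ ∅ = 0)
    (h3 : e.card = 3 → ∑ X ∈ e.powerset, (-1 : ℝ) ^ X.card * φ X = 0) (S : Finset V) :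
    ∑ a : V, ∑ b : V, qc e φ a b * (if a ∈ S ∧ b ∈ S then 1 else 0) = φ (S ∩ e) := by
  rw [qc_sum]
  set X := S ∩ e with hX
  have hXe : X ⊆ e := inter_subset_right
  have hXc := card_le_card hXe
  have hc : X.card = 0 ∨ X.card = 1 ∨ X.card = 2 ∨ X.card = 3 := by omega
  rcases hc with h | h | h | h
  · rw [card_eq_zero] at h
    rw [h, h0]
    simp
  · obtain ⟨a, ha⟩ := card_eq_one.1 h
    rw [ha]
    simp
  · obtain ⟨a, b, hab, ha⟩ := card_eq_two.1 h
    rw [ha, sum_pair hab, sum_pair hab, sum_pair hab, if_pos rfl, if_pos rfl, if_neg hab,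
      if_neg hab.symm, pair_comm b a]
    ring
  · obtain ⟨a, b, c, hab, hac, hbc, ha⟩ := card_eq_three.1 h
    have hee : X = e := eq_of_subset_of_card_le hXe (by omega)
    have h4 := h3 (by rw [← hee]; exact h)
    rw [← hee, ha] at h4
    have ha1 : a ∉ ({b, c} : Finset V) := by simp [hab, hac]
    have hb1 : b ∉ ({c} : Finset V) := by simp [hbc]
    rw [sum_powerset_insert ha1, sum_powerset_insert hb1, sum_powerset_insert hb1] at h4
    have hp : ({c} : Finset V).powerset = {∅, {c}} := by
      ext Y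
      simp [subset_singleton_iff]
    have hne : (∅ : Finset V) ≠ {c} := (singleton_ne_empty c).symm
    simp only [hp, sum_pair hne] at h4
    have i1 : insert b (∅ : Finset V) = {b} := rfl
    have i2 : insert a (∅ : Finset V) = {a} := rfl
    simp only [i1, i2, card_empty, card_singleton, card_pair hab, card_pair hac,
      card_pair hbc, h0, card_insert_of_notMem ha1] at h4
    rw [ha, sum_insert ha1, sum_pair hbc, sum_insert ha1, sum_pair hbc, sum_insert ha1,
      sum_pair hbc, sum_insert ha1, sum_pair hbc]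
    simp only [if_neg hab, if_neg hac, if_neg hbc, if_neg hab.symm, if_neg hac.symm,
      if_neg hbc.symm, if_true, pair_comm b a, pair_comm c a, pair_comm c b]
    norm_num at h4
    linarith

end Pool.Agent.H733.RW
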