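import Pool.Agent.H733.RW.Pairing
import Pool.Agent.H733.RW.Quad
set_option autoImplicit false
open Finset
namespace Pool.Agent.H733.RW

variable {V : Type} [DecidableEq V]

/-- the triangle-type inequality for three vertices -/
theorem two_le (e : Finset V) (he : e.card = 3) (g : Finset V → ℝ) (hg0 : ∀ X ⊆ e, 0 ≤ g X)
    (hge : g ∅ = 0)
    (hsub : ∀ S ⊆ e, ∀ T ⊆ e, g (S ∪ T) + g (S ∩ T) ≤ g S + g T) (X : Finset V) (hX : X ⊆ e) :
    2 * g X ≤ ∑ Y ∈ e.powerset, g Y := by
  have hXc := card_le_card hX
  have hnn : ∀ Y ∈ e.powerset, 0 ≤ g Y := fun Y hY => hg0 Y (mem_powerset.1 hY)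
  have key : ∀ Y1 Y2 : Finset V, Y1 ⊆ e → Y2 ⊆ e → X ≠ Y1 → X ≠ Y2 → Y1 ≠ Y2 →
      g X ≤ g Y1 + g Y2 → 2 * g X ≤ ∑ Y ∈ e.powerset, g Y := by
    intro Y1 Y2 h1 h2 h3 h4 h5 h6
    have h7 : ({X, Y1, Y2} : Finset (Finset V)) ⊆ e.powerset := by
      intro Z hZ
      rw [mem_insert, mem_insert, mem_singleton] at hZ
      rw [mem_powerset]
      rcases hZ with rfl | rfl | rfl <;> assumption
    have h8 := sum_le_sum_of_subset_of_nonneg h7 (f := g) (fun Y hY _ => hnn Y hY)
    rw [sum_insert (by simp [h3, h4]), sum_pair h5] at h8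
    linarith
  have hc : X.card = 0 ∨ X.card = 1 ∨ 2 ≤ X.card := by omega
  rcases hc with h | h | h
  · rw [card_eq_zero] at h
    rw [h, hge, mul_zero]
    exact sum_nonneg hnn
  · obtain ⟨b, hb⟩ : (e \ X).Nonempty := by
      rw [← card_pos, card_sdiff_of_subset hX]
      omega
    rw [mem_sdiff] at hb
    have hXb : X ⊆ e.erase b := fun v hv => mem_erase.2 ⟨fun h' => hb.2 (h' ▸ hv), hX hv⟩
    have hiX : insert b X ⊆ e := insert_subset hb.1 hX
    refine key (e.erase b) (insert b X) (erase_subset _ _) hiX ?_ ?_ ?_ ?_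
    · intro h'
      have := congrArg card h'
      rw [card_erase_of_mem hb.1] at this
      omega
    · intro h'
      exact hb.2 (h' ▸ mem_insert_self b X)
    · intro h'
      exact notMem_erase b e (h' ▸ mem_insert_self b X)
    · have h1 := hsub _ (erase_subset b e) _ hiX
      have h2 : e.erase b ∩ insert b X = X := by
        ext v
        rw [mem_inter, mem_erase, mem_insert]
        constructor
        · rintro ⟨⟨h3, -⟩, h4 | h4⟩
          · exact absurd h4 h3
          · exact h4
        · intro h3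
          exact ⟨⟨fun h' => hb.2 (h' ▸ h3), hX h3⟩, Or.inr h3⟩
      rw [h2] at h1
      have h3 := hg0 (e.erase b ∪ insert b X) (union_subset (erase_subset _ _) hiX)
      linarith
  · obtain ⟨a, ha⟩ : X.Nonempty := by
      rw [← card_pos]
      omega
    have h1 : ({a} : Finset V) ⊆ e := singleton_subset_iff.2 (hX ha)
    have h2 : X.erase a ⊆ e := (erase_subset _ _).trans hX
    refine key {a} (X.erase a) h1 h2 ?_ ?_ ?_ ?_
    · intro h'
      rw [h', card_singleton] at h
      omega
    · intro h'
      exact notMem_erase a X (h' ▸ ha)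
    · intro h'
      exact notMem_erase a X (h' ▸ mem_singleton_self a)
    · have h3 := hsub _ h1 _ h2
      have h4 : {a} ∪ X.erase a = X := by
        rw [← insert_eq, insert_erase ha]
      rw [h4] at h3
      have h5 := hg0 ({a} ∩ X.erase a) (inter_subset_left.trans h1)
      linarith

/-- assembling the quadratic polynomials -/
theorem assemble [Fintype V] (e : Finset V) (he : e.card ≤ 3) (g : Finset V → ℝ)
    (φ : ℕ → ℕ → Finset V → ℝ) (h0 : ∀ i j, φ i j ∅ = 0)
    (h3 : ∀ i j, e.card = 3 → ∑ X ∈ e.powerset, (-1 : ℝ) ^ X.card * φ i j X = 0)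
    (hφ : ∀ X ⊆ e, ∑ i ∈ range 8, ∑ j ∈ range 8, |φ i j X| = g X) :
    ∃ q : Fin 8 × Fin 8 → V × V → ℝ, ∀ S : Finset V, g (S ∩ e) =
      ∑ p, |∑ k : V × V, q p k * (if k.1 ∈ S ∧ k.2 ∈ S then 1 else 0)| := by
  refine ⟨fun p k => qc e (φ p.1 p.2) k.1 k.2, fun S => ?_⟩
  have h1 : ∀ p : Fin 8 × Fin 8, ∑ k : V × V, qc e (φ p.1 p.2) k.1 k.2 *
      (if k.1 ∈ S ∧ k.2 ∈ S then 1 else 0) = φ p.1 p.2 (S ∩ e) := by
    intro p
    rw [Fintype.sum_prod_type]
    exact quad e he _ (h0 _ _) (h3 _ _) S
  simp only [h1]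
  rw [← hφ _ inter_subset_right, Fintype.sum_prod_type,
    ← Fin.sum_univ_eq_sum_range (fun i => ∑ j ∈ range 8, |φ i j (S ∩ e)|) 8]
  apply sum_congr rfl
  intro i _
  rw [← Fin.sum_univ_eq_sum_range (fun j => |φ i j (S ∩ e)|) 8]

/-- representation of submodular functions on at most three vertices by quadratic polynomials -/
theorem rep [Fintype V] (e : Finset V) (he : e.card ≤ 3) (g : Finset V → ℝ)
    (hg0 : ∀ X ⊆ e, 0 ≤ g X) (hge : g ∅ = 0)
    (hsub : ∀ S ⊆ e, ∀ T ⊆ e, g (S ∪ T) + g (S ∩ T) ≤ g S + g T) :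
    ∃ q : Fin 8 × Fin 8 → V × V → ℝ, ∀ S : Finset V, g (S ∩ e) =
      ∑ p, |∑ k : V × V, q p k * (if k.1 ∈ S ∧ k.2 ∈ S then 1 else 0)| := by
  rcases Nat.lt_or_ge e.card 3 with h2 | h3'
  · refine assemble e he g (fun i j X => if i = 0 ∧ j = 0 then g X else 0) ?_ ?_ ?_
    · intro i j
      show (if i = 0 ∧ j = 0 then g ∅ else 0) = 0
      rw [hge, ite_self]
    · intro i j h
      omega
    · intro X hX
      rw [sum_eq_single_of_mem 0 (by simp), sum_eq_single_of_mem 0 (by simp)]
      · simp only [and_self, if_true]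
        exact abs_of_nonneg (hg0 X hX)
      · intro j _ hj
        rw [if_neg (fun h => hj h.2), abs_zero]
      · intro i _ hi
        apply sum_eq_zero
        intro j _
        rw [if_neg (fun h => hi h.1), abs_zero]
  · have h3 : e.card = 3 := le_antisymm he h3'
    obtain ⟨m, hm⟩ : ∃ m, m = e.powerset.card := ⟨_, rfl⟩
    have hm8 : m = 8 := by rw [hm, card_powerset, h3]; norm_num
    obtain ⟨T, hT1, hT2, hT3⟩ : ∃ T : ℕ → Finset V, (∀ i < m, T i ⊆ e) ∧
        (∀ X ⊆ e, ∃ i < m, T i = X) ∧ ∀ i < m, ∀ j < m, T i = T j → i = j := by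
      have f := e.powerset.equivFin
      rw [← hm] at f
      refine ⟨fun i => if h : i < m then (f.symm ⟨i, h⟩).1 else ∅, ?_, ?_, ?_⟩
      · intro i hi
        simp only [hi, dif_pos]
        exact mem_powerset.1 (f.symm ⟨i, hi⟩).2
      · intro X hX
        refine ⟨(f ⟨X, mem_powerset.2 hX⟩).1, (f ⟨X, mem_powerset.2 hX⟩).2, ?_⟩
        simp only [(f ⟨X, mem_powerset.2 hX⟩).2, dif_pos, Fin.eta, Equiv.symm_apply_apply]
      · intro i hi j hj hij
        simp only [hi, hj, dif_pos] at hij
        have h4 := f.symm.injective (Subtype.ext hij)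
        simpa using h4
    have hsum : ∑ j ∈ range m, g (T j) = ∑ Y ∈ e.powerset, g Y := by
      apply sum_bij (fun j _ => T j)
      · intro j hj
        exact mem_powerset.2 (hT1 j (mem_range.1 hj))
      · intro i hi j hj hij
        exact hT3 i (mem_range.1 hi) j (mem_range.1 hj) hij
      · intro Y hY
        obtain ⟨i, hi, hiY⟩ := hT2 Y (mem_powerset.1 hY)
        exact ⟨i, mem_range.2 hi, hiY⟩
      · intro j _
        rfl
    set r : ℕ → ℝ := fun i => if i < m then g (T i) else 0 with hr
    have hri : ∀ i < m, r i = g (T i) := fun i hi => by simp only [hr, if_pos hi]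
    have hr0 : ∀ i, 0 ≤ r i := by
      intro i
      simp only [hr]
      split_ifs with h
      · exact hg0 _ (hT1 i h)
      · exact le_rfl
    have hrs : ∑ j ∈ range m, r j = ∑ Y ∈ e.powerset, g Y := by
      rw [← hsum]
      exact sum_congr rfl fun j hj => hri j (mem_range.1 hj)
    obtain ⟨l, hl0, hls, hld, hlr⟩ := pairing m r hr0 (fun i hi => by
      rw [hrs, hri i hi]
      exact two_le e h3 g hg0 hge hsub _ (hT1 i hi))
    have hlz : ∀ i < m, ∀ j < m, T i = ∅ → l i j = 0 := by
      intro i hi j hj h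
      have h4 := hlr i hi
      rw [hri i hi, h, hge] at h4
      exact (sum_eq_zero_iff_of_nonneg fun j _ => hl0 i j).1 h4 j (mem_range.2 hj)
    refine assemble e he g (fun i j X => if i < m ∧ j < m then l i j / 2 *
      ((if X = T i then 1 else 0) -
        (-1 : ℝ) ^ ((T i).card + (T j).card) * (if X = T j then 1 else 0)) else 0) ?_ ?_ ?_
    · intro i j
      show (if i < m ∧ j < m then l i j / 2 *
      ((if ∅ = T i then 1 else 0) -
        (-1 : ℝ) ^ ((T i).card + (T j).card) * (if ∅ = T j then 1 else 0)) else 0) = 0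
      by_cases h : i < m ∧ j < m
      · rw [if_pos h]
        by_cases h5 : T i = ∅
        · rw [hlz i h.1 j h.2 h5]
          ring
        · by_cases h6 : T j = ∅
          · rw [hls, hlz j h.2 i h.1 h6]
            ring
          · rw [if_neg (Ne.symm h5), if_neg (Ne.symm h6)]
            ring
      · rw [if_neg h]
    · intro i j _
      by_cases h : i < m ∧ j < m
      · simp only [if_pos h]
        have h5 : ∀ X ∈ e.powerset, (-1 : ℝ) ^ X.card * (l i j / 2 *
            ((if X = T i then 1 else 0) -
              (-1 : ℝ) ^ ((T i).card + (T j).card) * (if X = T j then 1 else 0))) =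
            (if X = T i then l i j / 2 * (-1 : ℝ) ^ (T i).card else 0) -
            (if X = T j then l i j / 2 * (-1 : ℝ) ^ ((T i).card + (T j).card) *
              (-1 : ℝ) ^ (T j).card else 0) := by
          intro X _
          have a1 : (-1 : ℝ) ^ X.card * (if X = T i then (1 : ℝ) else 0) =
              if X = T i then (-1 : ℝ) ^ (T i).card else 0 := by
            by_cases h7 : X = T i
            · rw [if_pos h7, if_pos h7, h7, mul_one]
            · rw [if_neg h7, if_neg h7, mul_zero]
          have a2 : (-1 : ℝ) ^ X.card * (if X = T j then (1 : ℝ) else 0) =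
              if X = T j then (-1 : ℝ) ^ (T j).card else 0 := by
            by_cases h7 : X = T j
            · rw [if_pos h7, if_pos h7, h7, mul_one]
            · rw [if_neg h7, if_neg h7, mul_zero]
          calc (-1 : ℝ) ^ X.card * (l i j / 2 *
            ((if X = T i then 1 else 0) -
              (-1 : ℝ) ^ ((T i).card + (T j).card) * (if X = T j then 1 else 0)))
              = l i j / 2 * ((-1 : ℝ) ^ X.card * (if X = T i then (1 : ℝ) else 0)) -
                l i j / 2 * (-1 : ℝ) ^ ((T i).card + (T j).card) *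
                  ((-1 : ℝ) ^ X.card * (if X = T j then (1 : ℝ) else 0)) := by ring
            _ = _ := by
              rw [a1, a2, mul_ite, mul_zero, mul_ite, mul_zero]
        rw [sum_congr rfl h5, sum_sub_distrib, sum_ite_eq', sum_ite_eq',
          if_pos (mem_powerset.2 (hT1 i h.1)), if_pos (mem_powerset.2 (hT1 j h.2)), pow_add]
        have h8 : ((-1 : ℝ) ^ (T j).card) * (-1 : ℝ) ^ (T j).card = 1 := by
          rw [← mul_pow]
          norm_num
        linear_combination (- (l i j / 2 * (-1 : ℝ) ^ (T i).card)) * h8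
      · simp only [if_neg h, mul_zero, sum_const_zero]
    · intro X hX
      obtain ⟨k, hk, rfl⟩ := hT2 X hX
      have h5 : ∀ i ∈ range m, ∀ j ∈ range m, |(if i < m ∧ j < m then l i j / 2 *
          ((if T k = T i then 1 else 0) -
          (-1 : ℝ) ^ ((T i).card + (T j).card) * (if T k = T j then 1 else 0)) else 0)| =
          (if k = i then l i j / 2 else 0) + (if k = j then l i j / 2 else 0) := by
        intro i hi j hj
        rw [mem_range] at hi hj
        rw [if_pos ⟨hi, hj⟩, abs_mul, abs_of_nonneg (by linarith [hl0 i j] : 0 ≤ l i j / 2)]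
        have e1 : (T k = T i) ↔ k = i := ⟨fun h => hT3 k hk i hi h, fun h => by rw [h]⟩
        have e2 : (T k = T j) ↔ k = j := ⟨fun h => hT3 k hk j hj h, fun h => by rw [h]⟩
        simp only [e1, e2]
        by_cases h6 : k = i
        · by_cases h7 : k = j
          · rw [← h6, ← h7, hld k hk]
            simp
          · rw [if_pos h6, if_neg h7, if_pos h6, if_neg h7]
            simp
        · by_cases h7 : k = j
          · rw [if_neg h6, if_pos h7, if_neg h6, if_pos h7, zero_sub, abs_neg, mul_one,
              abs_pow, abs_neg, abs_one, one_pow]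
            ring
          · rw [if_neg h6, if_neg h7, if_neg h6, if_neg h7]
            simp
      rw [← hm8]
      rw [sum_congr rfl (fun i hi => sum_congr rfl (h5 i hi))]
      simp only [sum_add_distrib]
      have s1 : ∑ i ∈ range m, ∑ j ∈ range m, (if k = i then l i j / 2 else 0) = r k / 2 := by
        rw [sum_eq_single_of_mem k (mem_range.2 hk)]
        · simp only [if_true]
          rw [← sum_div, hlr k hk]
        · intro i _ hi
          apply sum_eq_zero
          intro j _
          rw [if_neg (Ne.symm hi)]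
      have s2 : ∑ i ∈ range m, ∑ j ∈ range m, (if k = j then l i j / 2 else 0) = r k / 2 := by
        rw [sum_comm, sum_eq_single_of_mem k (mem_range.2 hk)]
        · simp only [if_true]
          rw [← sum_div]
          simp only [hls _ k]
          rw [hlr k hk]
        · intro i _ hi
          apply sum_eq_zero
          intro j _
          rw [if_neg (Ne.symm hi)]
      rw [s1, s2, hri k hk]
      ring

end Pool.Agent.H733.RW
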